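import Pool.Agent.H22.CM.Stm

set_option autoImplicit false

namespace H91.CM

open H22.CM

theorem fac_sq_inj {G : Type} [Group G] [Finite G] (K : Subgroup G) (hK : Odd (Nat.card K))
    {u v : G} (hu : u ∈ K) (hv : v ∈ K) (h : u * u = v * v) : u = v := by
  have hc : (Nat.card K).Coprime 2 := hK.coprime_two_right
  have hinj := (powCoprime hc).injective
  have : powCoprime hc ⟨u, hu⟩ = powCoprime hc ⟨v, hv⟩ := by
    rw [powCoprime_apply, powCoprime_apply]
    apply Subtype.ext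
    simp [pow_two, h]
  have := hinj this
  exact congrArg Subtype.val this

theorem t_FAC : S_FAC := by
  intro G _ _ K P hK hKP hcard hcm
  obtain ⟨g, g', hg⟩ := hcm
  have hdisj : Disjoint K P := by
    rw [Subgroup.disjoint_def]
    intro x hx hx'
    exact hKP x hx hx'
  have hcompl : Subgroup.IsComplement' K P :=
    Subgroup.isComplement'_of_card_mul_and_disjoint hcard hdisj
  have hex : ∀ x : G, ∃ u : G, u ∈ K ∧ ∃ p : P, x = u * p := by
    intro x
    obtain ⟨⟨u, p⟩, h⟩ := hcompl.2 x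
    exact ⟨u, u.2, ⟨p, p.2⟩, h.symm⟩
  choose κ hκ ϖ hx using hex
  have key : ∀ x : G, x ∈ K → x ∈ P → x = 1 := hKP
  -- uniqueness
  have uni : ∀ a b : G, a ∈ P → b ∈ P → ∀ c d : G, c ∈ K → d ∈ K → a * c = b * d → a = b ∧ c = d := by
    intro a b ha hb c d hc hd h
    have h1 : b⁻¹ * a = d * c⁻¹ := by
      calc b⁻¹ * a = b⁻¹ * (a * c) * c⁻¹ := by group
        _ = b⁻¹ * (b * d) * c⁻¹ := by rw [h]
        _ = d * c⁻¹ := by group
    have h2 : b⁻¹ * a = 1 := key _ (h1 ▸ K.mul_mem hd (K.inv_mem hc)) (P.mul_mem (P.inv_mem hb) ha)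
    have h3 : d * c⁻¹ = 1 := h1 ▸ h2
    exact ⟨(inv_mul_eq_one.mp h2).symm, (mul_inv_eq_one.mp h3).symm⟩
  have uni' : ∀ c d : G, c ∈ K → d ∈ K → ∀ a b : G, a ∈ P → b ∈ P → c * a = d * b → c = d ∧ a = b := by
    intro c d hc hd a b ha hb h
    have h1 : d⁻¹ * c = b * a⁻¹ := by
      calc d⁻¹ * c = d⁻¹ * (c * a) * a⁻¹ := by group
        _ = d⁻¹ * (d * b) * a⁻¹ := by rw [h]
        _ = b * a⁻¹ := by group
    have h2 : d⁻¹ * c = 1 := key _ (K.mul_mem (K.inv_mem hd) hc) (h1 ▸ P.mul_mem hb (P.inv_mem ha))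
    have h3 : b * a⁻¹ = 1 := h1 ▸ h2
    exact ⟨(inv_mul_eq_one.mp h2).symm, (mul_inv_eq_one.mp h3).symm⟩
  -- the map
  let q : G → G := fun x => (g' (ϖ x) : G)
  let w : G → G := fun x => κ ((q x)⁻¹ * κ x)
  let π : G → G := fun x => (ϖ ((q x)⁻¹ * κ x) : G)
  have hqP : ∀ x, q x ∈ P := fun x => (g' (ϖ x)).2
  have hwK : ∀ x, w x ∈ K := fun x => hκ _
  have hπP : ∀ x, π x ∈ P := fun x => (ϖ _).2
  have hwπ : ∀ x, (q x)⁻¹ * κ x = w x * π x := fun x => hx _
  have hwπ' : ∀ x, κ x = q x * (w x * π x) := fun x => by rw [← hwπ x]; group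
  have hprod : ∀ x, x * ((g (ϖ x) : G) * w x) = κ x * κ x * (π x)⁻¹ := by
    intro x
    have h1 : q x = (ϖ x : G) * (g (ϖ x) : G) := by
      show (g' (ϖ x) : G) = _
      rw [hg]; rfl
    calc x * ((g (ϖ x) : G) * w x) = κ x * (ϖ x : G) * ((g (ϖ x) : G) * w x) := by
          rw [← hx x]
      _ = κ x * (((ϖ x : G) * (g (ϖ x) : G)) * (w x * π x)) * (π x)⁻¹ := by group
      _ = κ x * (q x * (w x * π x)) * (π x)⁻¹ := by rw [← h1]
      _ = κ x * κ x * (π x)⁻¹ := by rw [← hwπ' x]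
  have hxeq : ∀ x y, κ x = κ y → ϖ x = ϖ y → x = y := by
    intro x y h1 h2
    rw [hx x, hx y, h1, h2]
  have hone : ∀ x, x ∉ P → κ x ≠ 1 := by
    intro x hxP h
    apply hxP
    have := hx x
    rw [h, one_mul] at this
    rw [this]; exact (ϖ x).2
  refine ⟨fun x => (g (ϖ x) : G) * w x, ?_, ?_, ?_⟩
  · intro x hxP
    have hu := hone x hxP
    constructor
    · intro hmem
      have hw : w x ∈ P := by
        have := P.mul_mem (P.inv_mem (g (ϖ x)).2) hmem
        simpa using this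
      have hw1 : w x = 1 := key _ (hwK x) hw
      apply hu
      refine key _ (hκ x) ?_
      rw [hwπ' x, hw1, one_mul]
      exact P.mul_mem (hqP x) (hπP x)
    · intro hmem
      apply hu
      have hmem' : κ x * κ x * (π x)⁻¹ ∈ P := by
        rw [← hprod x]; exact hmem
      have h2 : κ x * κ x ∈ P := by
        have := P.mul_mem hmem' (hπP x)
        simpa using this
      have h3 : κ x * κ x = 1 := key _ (K.mul_mem (hκ x) (hκ x)) h2
      exact fac_sq_inj K hK (hκ x) K.one_mem (by rw [h3, one_mul])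
  · intro x _ y _ h
    have h' : (g (ϖ x) : G) * w x = (g (ϖ y) : G) * w y := h
    obtain ⟨e1, e2⟩ := uni _ _ (g (ϖ x)).2 (g (ϖ y)).2 _ _ (hwK x) (hwK y) h'
    have e3 : ϖ x = ϖ y := g.injective (Subtype.ext e1)
    have e4 : q x = q y := by show (g' (ϖ x) : G) = _; rw [e3]
    refine hxeq x y ?_ e3
    have h1 := hwπ' x
    have h2 := hwπ' y
    rw [e4, e2] at h1
    -- κ x = q y * (w y * π x), κ y = q y * (w y * π y)
    have h3 : κ x * (π x)⁻¹ = κ y * (π y)⁻¹ := by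
      rw [h1, h2]; group
    exact (uni' _ _ (hκ x) (hκ y) _ _ (P.inv_mem (hπP x)) (P.inv_mem (hπP y)) h3).1
  · intro x _ y _ h
    have h' : x * ((g (ϖ x) : G) * w x) = y * ((g (ϖ y) : G) * w y) := h
    rw [hprod x, hprod y] at h'
    obtain ⟨e1, e2⟩ := uni' _ _ (K.mul_mem (hκ x) (hκ x)) (K.mul_mem (hκ y) (hκ y)) _ _
      (P.inv_mem (hπP x)) (P.inv_mem (hπP y)) h'
    have e3 : κ x = κ y := fac_sq_inj K hK (hκ x) (hκ y) e1
    have e4 : π x = π y := inv_injective e2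
    have h1 := hwπ x
    have h2 := hwπ y
    have h3 : (q x) * w x = (q y) * w y := by
      have h4 : q x * w x = κ x * (π x)⁻¹ := by rw [hwπ' x]; group
      have h5 : q y * w y = κ y * (π y)⁻¹ := by rw [hwπ' y]; group
      rw [h4, h5, e3, e4]
    obtain ⟨e5, -⟩ := uni _ _ (hqP x) (hqP y) _ _ (hwK x) (hwK y) h3
    have e6 : ϖ x = ϖ y := g'.injective (Subtype.ext e5)
    exact hxeq x y e3 e6

end H91.CM
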