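import Pool.Agent.H22.CM.Stm

set_option autoImplicit false

namespace H91.CM

open H22.CM

theorem rad_card_comap {G : Type} [Group G] [Finite G] (R : Subgroup G) [R.Normal]
    (N : Subgroup (G ⧸ R)) :
    Nat.card (N.comap (QuotientGroup.mk' R)) = Nat.card R * Nat.card N := by
  have h1 := (N.comap (QuotientGroup.mk' R)).card_mul_index
  have h2 := N.card_mul_index
  have h3 : (N.comap (QuotientGroup.mk' R)).index = N.index :=
    Subgroup.index_comap_of_surjective N (QuotientGroup.mk'_surjective R)
  have h4 : Nat.card G = Nat.card (G ⧸ R) * Nat.card R := Subgroup.card_eq_card_quotient_mul_card_subgroup R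
  have h5 : N.index ≠ 0 := Subgroup.index_ne_zero_of_finite
  rw [h3, h4, ← h2] at h1
  apply Nat.eq_of_mul_eq_mul_right (Nat.pos_of_ne_zero h5)
  rw [h1]; ring

theorem t_RAD : S_RAD := by
  classical
  intro G _ _
  have hne : (⊥ : Subgroup G) ∈ {R : Subgroup G | R.Normal ∧ Odd (Nat.card R)} :=
    ⟨inferInstance, by simp⟩
  obtain ⟨R, ⟨hRn, hRo⟩, hmax⟩ := Set.exists_max_image {R : Subgroup G | R.Normal ∧ Odd (Nat.card R)}
    (fun R => Nat.card R) (Set.toFinite _) ⟨_, hne⟩
  haveI := hRn
  haveI : Fact (Nat.Prime 2) := ⟨Nat.prime_two⟩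
  have hsurj := QuotientGroup.mk'_surjective R
  have hiso : ∀ (P : Sylow 2 G) (Q : Sylow 2 (G ⧸ R)),
      Nonempty ((P : Subgroup G) ≃* (Q : Subgroup (G ⧸ R))) := by
    intro P Q
    let f : (P : Subgroup G) →* G ⧸ R := (QuotientGroup.mk' R).comp (P : Subgroup G).subtype
    have hinj : Function.Injective f := by
      rw [injective_iff_map_eq_one]
      intro a ha
      have haR : (a : G) ∈ R := by
        have : (QuotientGroup.mk' R) (a : G) = 1 := ha
        simpa [QuotientGroup.eq_one_iff] using this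
      have ho1 : orderOf (a : G) ∣ Nat.card R := by
        have := orderOf_dvd_natCard (⟨(a : G), haR⟩ : R)
        rwa [Subgroup.orderOf_mk] at this
      obtain ⟨k, hk⟩ := (IsPGroup.iff_orderOf.mp P.isPGroup') a
      have ho2 : orderOf (a : G) = 2 ^ k := by
        rw [← hk]; exact Subgroup.orderOf_coe a
      have hc : Nat.Coprime (2 ^ k) (Nat.card R) := Nat.Coprime.pow_left k hRo.coprime_two_left
      have : orderOf (a : G) = 1 := by
        rw [ho2] at ho1 ⊢
        exact Nat.Coprime.eq_one_of_dvd hc ho1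
      have h1 : (a : G) = 1 := orderOf_eq_one_iff.mp this
      exact Subtype.ext h1
    have e1 := MonoidHom.ofInjective hinj
    have hr : f.range = ((P.mapSurjective hsurj : Sylow 2 (G ⧸ R)) : Subgroup (G ⧸ R)) := by
      rw [Sylow.coe_mapSurjective]
      show ((QuotientGroup.mk' R).comp (P : Subgroup G).subtype).range = _
      rw [← MonoidHom.map_range, Subgroup.range_subtype]
    exact ⟨(e1.trans (MulEquiv.subgroupCongr hr)).trans (Sylow.equiv _ _)⟩
  refine ⟨R, hRn, hRo, ?_, hiso, ?_⟩
  · intro N hN hNo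
    haveI := hN
    have hcn := rad_card_comap R N
    have hmem : N.comap (QuotientGroup.mk' R) ∈ {R : Subgroup G | R.Normal ∧ Odd (Nat.card R)} := by
      refine ⟨inferInstance, ?_⟩
      rw [hcn]; exact hRo.mul hNo
    have hle := hmax _ hmem
    rw [hcn] at hle
    have hRpos : 0 < Nat.card R := Nat.card_pos
    have hN1 : Nat.card N ≤ 1 := by
      by_contra hlt
      push Not at hlt
      nlinarith
    have : Nat.card N = 1 := le_antisymm hN1 Nat.card_pos
    exact Subgroup.card_eq_one.mp this
  · intro P T hT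
    obtain ⟨Q, hQ⟩ := hT.exists_le_sylow
    obtain ⟨e⟩ := hiso P Q
    rw [Nat.card_congr e.toEquiv]
    exact Subgroup.card_le_of_le hQ

end H91.CM
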